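import Pool.Agent.Run7.h450.CS.Iface

/-!
# Project CL (helper450), piece V0: the field for `D₀ = 0`
-/

set_option autoImplicit false

open Filter Topology Matrix MeasureTheory

namespace Run7.h393.CL

open Run7.h450.CL

section

variable {K : Type} [Fintype K] [DecidableEq K]

theorem sl_sq {m : ℕ} (γ : Fin m → Matrix K K ℂ) (hγ : Cl γ) (x : Fin m → ℝ) :
    sl γ x * sl γ x = ((∑ j, x j ^ 2 : ℝ) : ℂ) • (1 : Matrix K K ℂ) := by
  have h2 : ∀ j k, γ j * γ k + γ k * γ j = if j = k then (2 : ℂ) • (1 : Matrix K K ℂ) else 0 := by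
    intro j k
    split_ifs with h
    · subst h
      rw [hγ.sq, two_smul]
    · rw [hγ.anti j k h, neg_add_cancel]
  have e1 : sl γ x * sl γ x = ∑ j, ∑ k, (((x j : ℝ) : ℂ) * ((x k : ℝ) : ℂ)) • (γ j * γ k) := by
    unfold sl
    rw [Finset.sum_mul_sum]
    simp only [smul_mul_smul_comm]
  have e2 : sl γ x * sl γ x = ∑ j, ∑ k, (((x j : ℝ) : ℂ) * ((x k : ℝ) : ℂ)) • (γ k * γ j) := by
    rw [e1, Finset.sum_comm]
    refine Finset.sum_congr rfl fun j _ => Finset.sum_congr rfl fun k _ => ?_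
    rw [mul_comm]
  have e3 : (2 : ℂ) • (sl γ x * sl γ x) =
      (2 : ℂ) • (((∑ j, x j ^ 2 : ℝ) : ℂ) • (1 : Matrix K K ℂ)) := by
    rw [two_smul]
    nth_rewrite 1 [e1]
    rw [e2, ← Finset.sum_add_distrib]
    simp only [← Finset.sum_add_distrib, ← smul_add, h2]
    simp only [smul_ite, smul_zero, Finset.sum_ite_eq, Finset.mem_univ, if_true]
    rw [← Finset.sum_smul, smul_smul, smul_smul]
    congr 1
    push_cast
    rw [mul_comm]
    congr 1
    exact Finset.sum_congr rfl fun j _ => by ring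
  exact smul_right_injective _ (two_ne_zero (α := ℂ)) e3

theorem wd_smul {p : ℕ} (c : ℂ) (u : Fin p → Matrix K K ℂ) :
    wd (fun k => c • u k) = c ^ p • wd u := by
  unfold wd
  induction p with
  | zero => simp
  | succ p ih =>
    rw [List.ofFn_succ, List.ofFn_succ, List.prod_cons, List.prod_cons, ih (fun k => u k.succ),
      smul_mul_smul_comm, ← pow_succ']

end

/-- the piece V0 -/
theorem t_V0 (hW : S_WEXP) : S_V0 := by
  intro K _ _ p γ hp hγ
  refine ⟨(Fintype.card (Equiv.Perm (Fin p)) : ℂ) *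
    ((Gam γ * Gam γ).trace * ((-1) ^ p * (-1) ^ ((p - 1) / 2))), ?_, ?_⟩
  · intro h
    refine mul_ne_zero (Nat.cast_ne_zero.2 Fintype.card_ne_zero) (mul_ne_zero h ?_)
    exact mul_ne_zero (pow_ne_zero _ (by norm_num)) (pow_ne_zero _ (by norm_num))
  · intro x hx i
    have hNpos : 0 < ∑ j, x j ^ 2 := by
      obtain ⟨j, hj⟩ := Function.ne_iff.1 hx
      have hj' : x j ≠ 0 := hj
      exact Finset.sum_pos' (fun _ _ => sq_nonneg _) ⟨j, Finset.mem_univ j, by positivity⟩
    have hsq := sl_sq γ hγ x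
    have hWx := hW K p γ hp hγ x
    set N : ℝ := ∑ j, x j ^ 2 with hN
    have hNc : (N : ℂ) ≠ 0 := by exact_mod_cast hNpos.ne'
    have hinv : (0 - sl γ x)⁻¹ = (-(N : ℂ)⁻¹) • sl γ x := by
      apply Matrix.inv_eq_right_inv
      rw [zero_sub, mul_smul_comm, neg_mul, hsq, neg_smul, smul_neg, neg_neg, smul_smul,
        inv_mul_cancel₀ hNc, one_smul]
    have term : ∀ τ : Equiv.Perm (Fin (p + 1)), τ 0 = i →
        sg τ * (Gam γ * wd (fun k : Fin p => (0 - sl γ x)⁻¹ * γ (τ k.succ))).trace =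
          (Gam γ * Gam γ).trace * ((-1) ^ p * (-1) ^ ((p - 1) / 2)) *
            (((x i) / N ^ ((p + 1) / 2) : ℝ) : ℂ) := by
      intro τ hτ
      have h1 : (fun k : Fin p => (0 - sl γ x)⁻¹ * γ (τ k.succ)) =
          fun k : Fin p => (-(N : ℂ)⁻¹) • (sl γ x * γ (τ k.succ)) := by
        funext k
        rw [hinv, smul_mul_assoc]
      rw [h1, wd_smul, mul_smul_comm, Matrix.trace_smul, smul_eq_mul, hWx τ, hτ]
      have hs : sg τ * sg τ = 1 := by
        unfold sg
        have : ((Equiv.Perm.sign τ : ℤ) : ℂ) * ((Equiv.Perm.sign τ : ℤ) : ℂ) =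
            (((Equiv.Perm.sign τ : ℤ) * (Equiv.Perm.sign τ : ℤ) : ℤ) : ℂ) := by push_cast; rfl
        rw [this]
        rcases Int.units_eq_one_or (Equiv.Perm.sign τ) with h | h <;> rw [h] <;> simp
      obtain ⟨q, rfl⟩ := hp
      have a1 : (2 * q + 1 - 1) / 2 = q := by omega
      have a2 : (2 * q + 1 + 1) / 2 = q + 1 := by omega
      rw [a1, a2]
      push_cast
      have h3 : (-(N : ℂ)⁻¹) ^ (2 * q + 1) * (-(N : ℂ)) ^ q =
          (-1) ^ (2 * q + 1) * (-1) ^ q * ((N : ℂ) ^ (q + 1))⁻¹ := by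
        rw [neg_pow ((N : ℂ)⁻¹), neg_pow (N : ℂ)]
        have h4 : ((N : ℂ)⁻¹) ^ (2 * q + 1) * (N : ℂ) ^ q = ((N : ℂ) ^ (q + 1))⁻¹ := by
          rw [inv_pow, show 2 * q + 1 = (q + 1) + q by ring, pow_add, mul_inv, mul_assoc,
            inv_mul_cancel₀ (pow_ne_zero _ hNc), mul_one]
        rw [← h4]
        ring
      calc sg τ * ((-(N : ℂ)⁻¹) ^ (2 * q + 1) *
            ((Gam γ * Gam γ).trace * sg τ * (x i : ℂ) * (-(N : ℂ)) ^ q))
          = (sg τ * sg τ) * (Gam γ * Gam γ).trace * (x i : ℂ) *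
              ((-(N : ℂ)⁻¹) ^ (2 * q + 1) * (-(N : ℂ)) ^ q) := by ring
        _ = _ := by
          rw [hs, h3]
          ring
    unfold VF
    rw [← Equiv.sum_comp (Equiv.Perm.decomposeFin (n := p)).symm, Fintype.sum_prod_type]
    have h5 : ∀ a : Fin (p + 1), (∑ e : Equiv.Perm (Fin p),
        if (Equiv.Perm.decomposeFin.symm (a, e)) 0 = i then
          sg (Equiv.Perm.decomposeFin.symm (a, e)) * (Gam γ * wd (fun k : Fin p =>
            (0 - sl γ x)⁻¹ * γ ((Equiv.Perm.decomposeFin.symm (a, e)) k.succ))).trace else 0) =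
        if a = i then (Fintype.card (Equiv.Perm (Fin p)) : ℂ) *
          ((Gam γ * Gam γ).trace * ((-1) ^ p * (-1) ^ ((p - 1) / 2)) *
            (((x i) / N ^ ((p + 1) / 2) : ℝ) : ℂ)) else 0 := by
      intro a
      split_ifs with ha
      · rw [Finset.sum_congr rfl fun e _ => by
          rw [if_pos (show (Equiv.Perm.decomposeFin.symm (a, e)) 0 = i by
            rw [Equiv.Perm.decomposeFin_symm_apply_zero]; exact ha),
            term _ (by rw [Equiv.Perm.decomposeFin_symm_apply_zero]; exact ha)]]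
        rw [Finset.sum_const, nsmul_eq_mul, Finset.card_univ]
      · apply Finset.sum_eq_zero
        intro e _
        rw [if_neg]
        rw [Equiv.Perm.decomposeFin_symm_apply_zero]
        exact ha
    rw [Finset.sum_congr rfl fun a _ => h5 a, Finset.sum_ite_eq' Finset.univ i, if_pos (Finset.mem_univ i)]
    ring

end Run7.h393.CL
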